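import Mathlib

set_option autoImplicit false

/-!
# The Daugavet property for operators with totally bounded image, and unconditional sums
-/

namespace Pool.Agent.TH324.DP

open Set Metric Filter Topology

variable {Y : Type*} [NormedAddCommGroup Y] [NormedSpace ℝ Y]

/-- every rank-one operator satisfies the Daugavet equation -/
def DProp (Y : Type*) [NormedAddCommGroup Y] [NormedSpace ℝ Y] : Prop :=
  ∀ (f : Y →L[ℝ] ℝ) (v : Y),
    ‖ContinuousLinearMap.id ℝ Y + f.smulRight v‖ = 1 + ‖f.smulRight v‖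

/-- points of a slice far away from a given vector -/
theorem dp_slice_aux (h : DProp Y) (f : Y →L[ℝ] ℝ) (hf : f ≠ 0) (c : ℝ) (hc : c < ‖f‖)
    (v : Y) (hv : v ≠ 0) {η : ℝ} (hη : 0 < η) :
    ∃ z : Y, ‖z‖ ≤ 1 ∧ c < f z ∧ 1 + ‖v‖ - η ≤ ‖z + v‖ := by
  have hF : 0 < ‖f‖ := norm_pos_iff.2 hf
  have hV : 0 < ‖v‖ := norm_pos_iff.2 hv
  set g : Y →L[ℝ] ℝ := ‖f‖⁻¹ • f with hg
  have hg1 : ‖g‖ = 1 := by
    rw [hg, norm_smul, norm_inv, norm_norm, inv_mul_cancel₀ hF.ne']
  have h1 : ‖ContinuousLinearMap.id ℝ Y + g.smulRight v‖ = 1 + ‖v‖ := by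
    rw [h g v, ContinuousLinearMap.norm_smulRight_apply, hg1, one_mul]
  set η' : ℝ := min (η / 2) (‖v‖ * (‖f‖ - c) / ‖f‖) with hη'
  have hη'0 : 0 < η' := by
    rw [hη']
    refine lt_min (by linarith) ?_
    exact div_pos (mul_pos hV (by linarith)) hF
  obtain ⟨z, hz1, hz2⟩ := ContinuousLinearMap.exists_lt_apply_of_lt_opNorm
    (ContinuousLinearMap.id ℝ Y + g.smulRight v) (r := 1 + ‖v‖ - η') (by rw [h1]; linarith)
  have key : ∀ z : Y, ‖z‖ < 1 → 0 ≤ g z → 1 + ‖v‖ - η' < ‖z + g z • v‖ →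
      ∃ z : Y, ‖z‖ ≤ 1 ∧ c < f z ∧ 1 + ‖v‖ - η ≤ ‖z + v‖ := by
    intro z hz1 hgz hz2
    refine ⟨z, hz1.le, ?_, ?_⟩
    · have h2 : ‖z + g z • v‖ ≤ 1 + g z * ‖v‖ := by
        refine (norm_add_le _ _).trans ?_
        rw [norm_smul, Real.norm_of_nonneg hgz]
        linarith
      have h3 : ‖v‖ - η' < g z * ‖v‖ := by linarith
      have h4 : η' ≤ ‖v‖ * (‖f‖ - c) / ‖f‖ := min_le_right _ _
      have h5 : g z = ‖f‖⁻¹ * f z := rfl
      have h6 : f z = ‖f‖ * g z := by rw [h5]; field_simp
      have h7 : ‖v‖ * c < ‖v‖ * f z := by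
        have h8 : ‖f‖ * η' ≤ ‖v‖ * (‖f‖ - c) := by
          have := mul_le_mul_of_nonneg_left h4 hF.le
          rwa [mul_div_cancel₀ _ hF.ne'] at this
        have h9 : ‖f‖ * (‖v‖ - η') < ‖f‖ * (g z * ‖v‖) := mul_lt_mul_of_pos_left h3 hF
        rw [h6]
        nlinarith
      exact lt_of_mul_lt_mul_left h7 hV.le
    · have h2 : ‖z + g z • v‖ ≤ 1 + g z * ‖v‖ := by
        refine (norm_add_le _ _).trans ?_
        rw [norm_smul, Real.norm_of_nonneg hgz]
        linarith
      have hgz1 : g z ≤ 1 := by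
        have := g.le_opNorm z
        rw [hg1, one_mul] at this
        exact (le_abs_self _).trans (this.trans hz1.le)
      have h3 : ‖z + g z • v‖ ≤ ‖z + v‖ + (1 - g z) * ‖v‖ := by
        have h4 : z + g z • v = (z + v) - (1 - g z) • v := by
          rw [sub_smul, one_smul]; abel
        rw [h4]
        refine (norm_sub_le _ _).trans ?_
        rw [norm_smul, Real.norm_of_nonneg (by linarith)]
      have h5 : η' ≤ η / 2 := min_le_left _ _
      nlinarith
  rcases le_total 0 (g z) with hgz | hgz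
  · exact key z hz1 hgz (by simpa using hz2)
  · refine key (-z) (by rwa [norm_neg]) (by rw [map_neg]; linarith) ?_
    have h2 : -z + g (-z) • v = -(z + g z • v) := by
      rw [map_neg, neg_smul, neg_add]
    rw [h2, norm_neg]
    simpa using hz2

theorem nontrivial_of_dp (h : DProp Y) : Nontrivial Y := by
  by_contra hn
  rw [not_nontrivial_iff_subsingleton] at hn
  have h1 := h 0 0
  have h2 : (ContinuousLinearMap.id ℝ Y + (0 : Y →L[ℝ] ℝ).smulRight (0 : Y)) = 0 :=
    Subsingleton.elim _ _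
  have h3 : ((0 : Y →L[ℝ] ℝ).smulRight (0 : Y)) = 0 := Subsingleton.elim _ _
  rw [h2, h3, norm_zero] at h1
  norm_num at h1

theorem dp_slice (h : DProp Y) (f : Y →L[ℝ] ℝ) (c : ℝ) (hne : ∃ x : Y, ‖x‖ ≤ 1 ∧ c < f x)
    (v : Y) (hv : v ≠ 0) {η : ℝ} (hη : 0 < η) :
    ∃ z : Y, ‖z‖ ≤ 1 ∧ c < f z ∧ 1 + ‖v‖ - η ≤ ‖z + v‖ := by
  obtain ⟨x, hx1, hx2⟩ := hne
  by_cases hf : f = 0
  · obtain ⟨g, hg1, _⟩ := exists_dual_vector ℝ v (norm_ne_zero_iff.2 hv)
    have hg0 : g ≠ 0 := by
      rintro rfl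
      rw [norm_zero] at hg1
      exact zero_ne_one hg1
    obtain ⟨z, hz1, _, hz3⟩ := dp_slice_aux h g hg0 0 (by rw [hg1]; exact one_pos) v hv hη
    refine ⟨z, hz1, ?_, hz3⟩
    rw [hf] at hx2 ⊢
    simpa using hx2
  · refine dp_slice_aux h f hf c ?_ v hv hη
    have h1 := f.le_opNorm x
    have h2 : ‖f‖ * ‖x‖ ≤ ‖f‖ := mul_le_of_le_one_right (norm_nonneg _) hx1
    exact hx2.trans_le ((le_abs_self _).trans (h1.trans h2))

/-- An operator with totally bounded image of the ball is almost constant on a slice, with a value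
of almost maximal norm. -/
theorem slice_of_tb (T : Y →L[ℝ] Y) (hT : TotallyBounded (T '' closedBall (0 : Y) 1)) {ε : ℝ}
    (hε : 0 < ε) :
    ∃ (f : Y →L[ℝ] ℝ) (c : ℝ) (v : Y), (∃ x : Y, ‖x‖ ≤ 1 ∧ c < f x) ∧ ‖T‖ - 3 * ε ≤ ‖v‖ ∧
      ∀ x : Y, ‖x‖ ≤ 1 → c < f x → ‖T x - v‖ ≤ 2 * ε := by
  classical
  obtain ⟨t, htf, htc⟩ := Metric.totallyBounded_iff.1 hT ε hε
  let A : Y → Set Y := fun k => {x : Y | ‖x‖ ≤ 1 ∧ ‖T x - k‖ < ε}
  have hAconv : ∀ k, Convex ℝ (A k) := by
    intro k x hx y hy a b ha hb hab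
    refine ⟨?_, ?_⟩
    · calc ‖a • x + b • y‖ ≤ ‖a • x‖ + ‖b • y‖ := norm_add_le _ _
        _ = a * ‖x‖ + b * ‖y‖ := by
          rw [norm_smul, norm_smul, Real.norm_of_nonneg ha, Real.norm_of_nonneg hb]
        _ ≤ a * 1 + b * 1 := add_le_add (mul_le_mul_of_nonneg_left hx.1 ha)
            (mul_le_mul_of_nonneg_left hy.1 hb)
        _ = 1 := by linarith
    · have h1 : T (a • x + b • y) - k = a • (T x - k) + b • (T y - k) := by
        rw [map_add, map_smul, map_smul, smul_sub, smul_sub]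
        have : k = a • k + b • k := by rw [← add_smul, hab, one_smul]
        nth_rewrite 1 [this]
        abel
      have := (convex_ball (0 : Y) ε) (x := T x - k) (by simpa using hx.2)
        (y := T y - k) (by simpa using hy.2) ha hb hab
      rw [h1]
      simpa using this
  let P : Finset Y → Prop := fun J =>
    closedBall (0 : Y) 1 ⊆ closure (convexHull ℝ (⋃ k ∈ J, A k))
  have hPt : P htf.toFinset := by
    intro x hx
    refine subset_closure (subset_convexHull ℝ _ ?_)
    have hx' : ‖x‖ ≤ 1 := by simpa using hx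
    have h1 := htc (mem_image_of_mem T hx)
    simp only [mem_iUnion, mem_ball, exists_prop] at h1 ⊢
    obtain ⟨k, hk, hk2⟩ := h1
    exact ⟨k, by simpa using hk, hx', by rwa [← dist_eq_norm]⟩
  obtain ⟨J, hJ, hmin⟩ := (Finset.isWellFounded_ssubset (α := Y)).wf.has_min {J | P J} ⟨_, hPt⟩
  have hJ' : P J := hJ
  -- a piece with almost maximal value
  obtain ⟨i, hiJ, hi⟩ : ∃ i ∈ J, ‖T‖ - 3 * ε ≤ ‖i‖ := by
    by_contra hcon
    push Not at hcon
    obtain ⟨x, hx1, hx2⟩ := ContinuousLinearMap.exists_lt_apply_of_lt_opNorm T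
      (r := ‖T‖ - ε) (by linarith)
    have h1 : (⋃ k ∈ J, A k) ⊆ T ⁻¹' closedBall (0 : Y) (‖T‖ - 2 * ε) := by
      intro y hy
      simp only [mem_iUnion, exists_prop] at hy
      obtain ⟨k, hk, _, hk2⟩ := hy
      have h2 := hcon k hk
      have h3 : ‖T y‖ ≤ ‖T y - k‖ + ‖k‖ := by
        calc ‖T y‖ = ‖(T y - k) + k‖ := by rw [sub_add_cancel]
          _ ≤ _ := norm_add_le _ _
      simp only [mem_preimage, mem_closedBall, dist_zero_right]
      linarith
    have h2 : convexHull ℝ (⋃ k ∈ J, A k) ⊆ T ⁻¹' closedBall (0 : Y) (‖T‖ - 2 * ε) :=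
      convexHull_min h1 ((convex_closedBall _ _).is_linear_preimage T.isLinear)
    have h3 : closure (convexHull ℝ (⋃ k ∈ J, A k)) ⊆ T ⁻¹' closedBall (0 : Y) (‖T‖ - 2 * ε) :=
      closure_minimal h2 (isClosed_closedBall.preimage T.continuous)
    have h4 := h3 (hJ' (by simpa using hx1.le : x ∈ closedBall (0 : Y) 1))
    simp only [mem_preimage, mem_closedBall, dist_zero_right] at h4
    linarith
  set D : Set Y := closure (convexHull ℝ (⋃ k ∈ J.erase i, A k)) with hD
  have hnP : ¬ P (J.erase i) := fun hcon => hmin (J.erase i) hcon (Finset.erase_ssubset hiJ)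
  obtain ⟨b, hb1, hb2⟩ : ∃ b ∈ closedBall (0 : Y) 1, b ∉ D := by
    by_contra hcon
    push Not at hcon
    exact hnP hcon
  obtain ⟨f, u, hfu, hub⟩ := geometric_hahn_banach_closed_point
    (convex_convexHull ℝ _).closure isClosed_closure hb2
  have hb1' : ‖b‖ ≤ 1 := by simpa using hb1
  have hfb : f b ≤ ‖f‖ := (le_abs_self _).trans
    ((f.le_opNorm b).trans (mul_le_of_le_one_right (norm_nonneg _) hb1'))
  have hgap : 0 < f b - u := by linarith
  -- the slice
  set δ : ℝ := ε * (‖f‖ - u) / (2 * ‖T‖ + ε) with hδ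
  have hden : 0 < 2 * ‖T‖ + ε := by have := norm_nonneg T; linarith
  have hgap2 : 0 < ‖f‖ - u := by linarith
  have hδ0 : 0 < δ := by positivity
  refine ⟨f, ‖f‖ - δ, i, ?_, hi, ?_⟩
  · by_cases hf : f = 0
    · refine ⟨0, by simp, ?_⟩
      rw [hf]
      simpa using hδ0
    · obtain ⟨x, hx1, hx2⟩ := ContinuousLinearMap.exists_lt_apply_of_lt_opNorm f
        (r := ‖f‖ - δ) (by linarith)
      rcases le_total 0 (f x) with h0 | h0
      · refine ⟨x, hx1.le, ?_⟩
        rwa [Real.norm_of_nonneg h0] at hx2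
      · refine ⟨-x, by rw [norm_neg]; exact hx1.le, ?_⟩
        rw [map_neg]
        rwa [Real.norm_of_nonpos h0] at hx2
  · -- estimate on the convex join
    have hhull : ∀ x ∈ convexHull ℝ (⋃ k ∈ J, A k), ‖f‖ - δ < f x → ‖T x - i‖ ≤ 2 * ε := by
      intro x hx hfx
      have hsplit : (⋃ k ∈ J, A k) = A i ∪ ⋃ k ∈ J.erase i, A k := by
        ext y
        simp only [mem_iUnion, mem_union, exists_prop, Finset.mem_erase]
        constructor
        · rintro ⟨k, hk, hy⟩
          by_cases hki : k = i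
          · left; rwa [← hki]
          · right; exact ⟨k, ⟨hki, hk⟩, hy⟩
        · rintro (hy | ⟨k, ⟨_, hk⟩, hy⟩)
          · exact ⟨i, hiJ, hy⟩
          · exact ⟨k, hk, hy⟩
      rw [hsplit] at hx
      by_cases hDe : (⋃ k ∈ J.erase i, A k) = ∅
      · rw [hDe, union_empty, (hAconv i).convexHull_eq] at hx
        linarith [hx.2]
      · have hDe' : (⋃ k ∈ J.erase i, A k).Nonempty := nonempty_iff_ne_empty.2 hDe
        by_cases hAe : A i = ∅
        · rw [hAe, empty_union] at hx
          have h1 := hfu x (subset_closure hx)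
          exfalso
          have h2 : δ ≤ ‖f‖ - u := by
            rw [hδ, div_le_iff₀ hden]
            have := norm_nonneg T
            nlinarith
          linarith
        · have hAe' : (A i).Nonempty := nonempty_iff_ne_empty.2 hAe
          rw [convexHull_union hAe' hDe', (hAconv i).convexHull_eq, mem_convexJoin] at hx
          obtain ⟨a, ha, d, hd, hx⟩ := hx
          obtain ⟨p, q, hp, hq, hpq, rfl⟩ := hx
          have hfd : f d < u := hfu d (subset_closure hd)
          have hfa : f a ≤ ‖f‖ := (le_abs_self _).trans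
            ((f.le_opNorm a).trans (mul_le_of_le_one_right (norm_nonneg _) ha.1))
          have hd1 : ‖d‖ ≤ 1 := by
            have h1 : (⋃ k ∈ J.erase i, A k) ⊆ closedBall (0 : Y) 1 := by
              intro y hy
              simp only [mem_iUnion, exists_prop] at hy
              obtain ⟨k, _, hy, _⟩ := hy
              simpa using hy
            have h2 := convexHull_min h1 (convex_closedBall _ _) hd
            simpa using h2
          have hval : f (p • a + q • d) = p * f a + q * f d := by simp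
          rw [hval] at hfx
          have hq1 : q * (‖f‖ - u) < δ := by
            have e1 := mul_le_mul_of_nonneg_left hfa hp
            have e2 := mul_le_mul_of_nonneg_left hfd.le hq
            have e3 : p = 1 - q := by linarith
            rw [e3] at e1 hfx
            nlinarith
          have hq2 : q * (2 * ‖T‖ + ε) < ε := by
            rw [hδ, lt_div_iff₀ hden] at hq1
            have : (q * (2 * ‖T‖ + ε)) * (‖f‖ - u) < ε * (‖f‖ - u) := by nlinarith
            exact lt_of_mul_lt_mul_right this hgap2.le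
          have h5 : T (p • a + q • d) - i = (T a - i) + q • T (d - a) := by
            rw [map_add, map_smul, map_smul, map_sub, smul_sub]
            have : p = 1 - q := by linarith
            rw [this, sub_smul, one_smul]
            abel
          have h6 : ‖T (d - a)‖ ≤ 2 * ‖T‖ := by
            refine (T.le_opNorm _).trans ?_
            have : ‖d - a‖ ≤ 2 := by
              refine (norm_sub_le _ _).trans ?_
              linarith [ha.1]
            have := mul_le_mul_of_nonneg_left this (norm_nonneg T)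
            linarith
          rw [h5]
          refine (norm_add_le _ _).trans ?_
          rw [norm_smul, Real.norm_of_nonneg hq]
          have h7 := ha.2
          have h8 := mul_le_mul_of_nonneg_left h6 hq
          have h9 : 0 ≤ q * ε := by positivity
          nlinarith
    intro x hx1 hx2
    have hx3 : x ∈ closure (convexHull ℝ (⋃ k ∈ J, A k)) := hJ' (by simpa using hx1)
    -- pass to the closure inside the open half-space
    have hopen : IsOpen {y : Y | ‖f‖ - δ < f y} := isOpen_lt continuous_const f.continuous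
    have h1 : x ∈ closure (convexHull ℝ (⋃ k ∈ J, A k) ∩ {y : Y | ‖f‖ - δ < f y}) := by
      have h2 := hopen.inter_closure (t := convexHull ℝ (⋃ k ∈ J, A k)) ⟨hx2, hx3⟩
      rwa [inter_comm] at h2
    have hcl : IsClosed {y : Y | ‖T y - i‖ ≤ 2 * ε} :=
      isClosed_le ((T.continuous.sub continuous_const).norm) continuous_const
    exact closure_minimal (fun y hy => hhull y hy.1 hy.2) hcl h1

/-- The Daugavet equation for operators with totally bounded image of the ball. -/
theorem dp_tb (h : DProp Y) (T : Y →L[ℝ] Y) (hT : TotallyBounded (T '' closedBall (0 : Y) 1)) :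
    1 + ‖T‖ ≤ ‖ContinuousLinearMap.id ℝ Y + T‖ := by
  by_cases hT0 : T = 0
  · have h1 := h 0 0
    have h2 : ((0 : Y →L[ℝ] ℝ).smulRight (0 : Y)) = 0 := by ext; simp
    rw [h2] at h1
    rw [hT0, h1]
  have hTn : 0 < ‖T‖ := norm_pos_iff.2 hT0
  by_contra hcon
  push Not at hcon
  set ε : ℝ := min (‖T‖ / 4) ((1 + ‖T‖ - ‖ContinuousLinearMap.id ℝ Y + T‖) / 12) with hε
  have hε0 : 0 < ε := lt_min (by linarith) (by linarith)
  have hε1 : ε ≤ ‖T‖ / 4 := min_le_left _ _
  have hε2 : ε ≤ (1 + ‖T‖ - ‖ContinuousLinearMap.id ℝ Y + T‖) / 12 := min_le_right _ _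
  obtain ⟨f, c, v, hne, hv, hsl⟩ := slice_of_tb T hT hε0
  have hv0 : v ≠ 0 := by
    rintro rfl
    rw [norm_zero] at hv
    linarith
  obtain ⟨z, hz1, hz2, hz3⟩ := dp_slice h f c hne v hv0 hε0
  have h1 := hsl z hz1 hz2
  have h2 : ‖z + v‖ ≤ ‖z + T z‖ + ‖T z - v‖ := by
    have : z + v = (z + T z) - (T z - v) := by abel
    rw [this]
    exact norm_sub_le _ _
  have h3 : ‖z + T z‖ ≤ ‖ContinuousLinearMap.id ℝ Y + T‖ := by
    have := (ContinuousLinearMap.id ℝ Y + T).le_opNorm z
    have h4 := mul_le_of_le_one_right (norm_nonneg (ContinuousLinearMap.id ℝ Y + T)) hz1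
    exact this.trans h4
  linarith

/-- No Daugavet space is an unconditional sum of operators with totally bounded image. -/
theorem no_dp_of_unconditional {ι : Type*} [DecidableEq ι] (S : Finset ι → (Y →L[ℝ] Y))
    (hfin : ∀ F, TotallyBounded (S F '' closedBall (0 : Y) 1)) (C : ℝ) (hC : ∀ F, ‖S F‖ ≤ C)
    (hsub : ∀ F G, F ⊆ G → S G - S F = S (G \ F))
    (hlim : ∀ x, Tendsto (fun F => S F x) atTop (𝓝 x)) : ¬ DProp Y := by
  intro h
  have hbdd : BddAbove (range fun F => ‖S F‖) := ⟨C, by rintro _ ⟨F, rfl⟩; exact hC F⟩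
  set α : ℝ := ⨆ F, ‖S F‖ with hα
  have hle : ∀ F, ‖S F‖ ≤ α := fun F => le_ciSup hbdd F
  have hα0 : 0 ≤ α := (norm_nonneg _).trans (hle ∅)
  have h1 : ∀ F, 1 + ‖S F‖ ≤ α := by
    intro F
    have h2 : TotallyBounded ((-(S F)) '' closedBall (0 : Y) 1) := by
      have h3 : ((-(S F) : Y →L[ℝ] Y) : Y → Y) '' closedBall (0 : Y) 1
          = (fun y => -y) '' (S F '' closedBall (0 : Y) 1) := by
        rw [image_image]
        rfl
      rw [h3]
      exact (hfin F).image uniformContinuous_neg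
    have h3 := dp_tb h (-(S F)) h2
    rw [norm_neg] at h3
    refine h3.trans ?_
    refine ContinuousLinearMap.opNorm_le_bound _ hα0 ?_
    intro x
    have h4 : Tendsto (fun G => ‖S G x - S F x‖) atTop (𝓝 ‖x - S F x‖) :=
      ((hlim x).sub_const _).norm
    have h5 : (ContinuousLinearMap.id ℝ Y + -(S F)) x = x - S F x := by
      simp [sub_eq_add_neg]
    rw [h5]
    refine le_of_tendsto h4 ?_
    filter_upwards [eventually_ge_atTop F] with G hG
    have h6 : S G x - S F x = (S (G \ F)) x := by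
      rw [← hsub F G hG]; rfl
    rw [h6]
    exact ((S (G \ F)).le_opNorm x).trans (mul_le_mul_of_nonneg_right (hle _) (norm_nonneg _))
  have h2 : α ≤ α - 1 := ciSup_le fun F => by linarith [h1 F]
  linarith

end Pool.Agent.TH324.DP
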