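import Mathlib

set_option autoImplicit false

/-!
# A space with an unconditional basis that is not slicely countably determined

The basis is indexed by the dyadic tree (lists of booleans, a list `s` is below all lists that have
`s` as a suffix). The functionals are the families of coefficients whose absolute values sum to at
most one along all branches and on all levels.
-/

namespace Pool.Agent.TH324.Tree

open Set Metric Filter Topology
open scoped BoundedContinuousFunction

/-- sum along the branch to `s` -/
def bs (a : List Bool → ℝ) : List Bool → ℝ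
  | [] => a []
  | b :: s => a (b :: s) + bs a s

/-- sum over the successors of `s` that are `k` levels higher -/
def ls (a : List Bool → ℝ) : ℕ → List Bool → ℝ
  | 0, s => a s
  | k + 1, s => ls a k (false :: s) + ls a k (true :: s)

/-- admissible families of coefficients -/
def J : Set (List Bool → ℝ) :=
  {a | (∀ s, bs (fun t => |a t|) s ≤ 1) ∧ ∀ k s, ls (fun t => |a t|) k s ≤ 1}

theorem bs_mono {a b : List Bool → ℝ} (h : ∀ t, a t ≤ b t) (s : List Bool) : bs a s ≤ bs b s := by
  induction s with
  | nil => exact h _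
  | cons x s ih => exact add_le_add (h _) ih

theorem ls_mono {a b : List Bool → ℝ} (h : ∀ t, a t ≤ b t) (k : ℕ) (s : List Bool) :
    ls a k s ≤ ls b k s := by
  induction k generalizing s with
  | zero => exact h _
  | succ k ih => exact add_le_add (ih _) (ih _)

theorem abs_bs_le (a : List Bool → ℝ) (s : List Bool) : |bs a s| ≤ bs (fun t => |a t|) s := by
  induction s with
  | nil => exact le_rfl
  | cons x s ih => exact (abs_add_le _ _).trans (add_le_add le_rfl ih)

theorem abs_ls_le (a : List Bool → ℝ) (k : ℕ) (s : List Bool) :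
    |ls a k s| ≤ ls (fun t => |a t|) k s := by
  induction k generalizing s with
  | zero => exact le_rfl
  | succ k ih => exact (abs_add_le _ _).trans (add_le_add (ih _) (ih _))

/-- restriction of coefficients to a finite set of nodes -/
def restr (F : Finset (List Bool)) (a : J) : J :=
  ⟨fun t => if t ∈ F then a.1 t else 0, by
    have h : ∀ t, |if t ∈ F then a.1 t else 0| ≤ |a.1 t| := by
      intro t
      split_ifs
      · exact le_rfl
      · rw [abs_zero]; exact abs_nonneg _
    exact ⟨fun s => (bs_mono h s).trans (a.2.1 s), fun k s => (ls_mono h k s).trans (a.2.2 k s)⟩⟩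

theorem restr_val (F : Finset (List Bool)) (a : J) (t : List Bool) :
    (restr F a).1 t = if t ∈ F then a.1 t else 0 := rfl

theorem continuous_restr (F : Finset (List Bool)) : Continuous (restr F) := by
  refine Continuous.subtype_mk (continuous_pi fun t => ?_) _
  by_cases h : t ∈ F
  · simp only [h, if_true]
    exact (continuous_apply t).comp continuous_subtype_val
  · simp only [h, if_false]
    exact continuous_const

theorem abs_le_one (a : J) (t : List Bool) : |a.1 t| ≤ 1 := a.2.2 0 t

/-- the coordinate functions -/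
noncomputable def e (t : List Bool) : J →ᵇ ℝ :=
  BoundedContinuousFunction.ofNormedAddCommGroup (fun a : J => a.1 t)
    ((continuous_apply t).comp continuous_subtype_val) 1 (fun a => abs_le_one a t)

@[simp] theorem e_apply (t : List Bool) (a : J) : e t a = a.1 t := rfl

/-- the projections -/
noncomputable def R (F : Finset (List Bool)) : (J →ᵇ ℝ) →L[ℝ] (J →ᵇ ℝ) :=
  LinearMap.mkContinuous
    { toFun := fun x => x.compContinuous ⟨restr F, continuous_restr F⟩
      map_add' := fun x y => by ext a; rfl
      map_smul' := fun c x => by ext a; rfl } 1 (fun x => by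
        rw [one_mul]
        rw [BoundedContinuousFunction.norm_le (norm_nonneg _)]
        intro a
        exact x.norm_coe_le_norm _)

@[simp] theorem R_apply (F : Finset (List Bool)) (x : J →ᵇ ℝ) (a : J) :
    R F x a = x (restr F a) := rfl

theorem norm_R_le (F : Finset (List Bool)) : ‖R F‖ ≤ 1 :=
  LinearMap.mkContinuous_norm_le _ zero_le_one _

theorem R_e (F : Finset (List Bool)) (t : List Bool) : R F (e t) = if t ∈ F then e t else 0 := by
  ext a
  rw [R_apply, e_apply, restr_val]
  split_ifs <;> simp

/-- the span of the coordinate functions -/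
noncomputable def E₀ : Submodule ℝ (J →ᵇ ℝ) := Submodule.span ℝ (range e)

/-- the space with unconditional basis `e t` -/
noncomputable def E : Submodule ℝ (J →ᵇ ℝ) := E₀.topologicalClosure

theorem e_mem (t : List Bool) : e t ∈ E :=
  E₀.le_topologicalClosure (Submodule.subset_span ⟨t, rfl⟩)

/-- continuous linear maps equal on the basis are equal on `E` -/
theorem eq_on_E {G : Type*} [NormedAddCommGroup G] [NormedSpace ℝ G]
    (A B : (J →ᵇ ℝ) →L[ℝ] G) (h : ∀ t, A (e t) = B (e t)) : ∀ x ∈ E, A x = B x := by
  intro x hx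
  have h1 : E₀ ≤ LinearMap.ker (A - B : (J →ᵇ ℝ) →L[ℝ] G).toLinearMap := by
    refine Submodule.span_le.2 ?_
    rintro _ ⟨t, rfl⟩
    simp [h t]
  have h2 : E ≤ LinearMap.ker (A - B : (J →ᵇ ℝ) →L[ℝ] G).toLinearMap :=
    E₀.topologicalClosure_minimal h1 (A - B : (J →ᵇ ℝ) →L[ℝ] G).isClosed_ker
  have h3 := h2 hx
  have h4 : (A - B : (J →ᵇ ℝ) →L[ℝ] G) x = 0 := h3
  exact sub_eq_zero.1 h4

/-- the image of `E` under a projection is finite-dimensional -/
theorem R_mem (F : Finset (List Bool)) : ∀ x ∈ E, R F x ∈ Submodule.span ℝ (e '' (F : Set (List Bool))) := by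
  intro x hx
  have hfd : FiniteDimensional ℝ (Submodule.span ℝ (e '' (F : Set (List Bool)))) :=
    FiniteDimensional.span_of_finite ℝ (F.finite_toSet.image e)
  have hcl : IsClosed ((Submodule.span ℝ (e '' (F : Set (List Bool)))) : Set (J →ᵇ ℝ)) :=
    Submodule.closed_of_finiteDimensional _
  have h1 : E₀ ≤ (Submodule.span ℝ (e '' (F : Set (List Bool)))).comap (R F).toLinearMap := by
    refine Submodule.span_le.2 ?_
    rintro _ ⟨t, rfl⟩
    simp only [Submodule.comap_coe, mem_preimage, SetLike.mem_coe]
    change R F (e t) ∈ _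
    rw [R_e]
    split_ifs with h
    · exact Submodule.subset_span ⟨t, h, rfl⟩
    · exact Submodule.zero_mem _
  have h2 : E ≤ (Submodule.span ℝ (e '' (F : Set (List Bool)))).comap (R F).toLinearMap :=
    E₀.topologicalClosure_minimal h1 (hcl.preimage (R F).continuous)
  exact h2 hx

theorem R_mem_E (F : Finset (List Bool)) : ∀ x ∈ E, R F x ∈ E := by
  intro x hx
  have h1 : Submodule.span ℝ (e '' (F : Set (List Bool))) ≤ E := by
    refine Submodule.span_le.2 ?_
    rintro _ ⟨t, _, rfl⟩
    exact e_mem t
  exact h1 (R_mem F x hx)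

/-- the space with unconditional basis `e t`, as a type -/
def X : Type := E

noncomputable instance : NormedAddCommGroup X := inferInstanceAs (NormedAddCommGroup E)

noncomputable instance : NormedSpace ℝ X := inferInstanceAs (NormedSpace ℝ E)

/-- the inclusion into the bounded functions -/
noncomputable def inc : X →ₗ[ℝ] (J →ᵇ ℝ) := E.subtype

theorem norm_inc (x : X) : ‖inc x‖ = ‖x‖ := rfl

theorem inc_injective : Function.Injective inc := Subtype.val_injective

theorem inc_mem (x : X) : inc x ∈ E := Subtype.property (p := fun y => y ∈ E) x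

theorem exists_inc {y : J →ᵇ ℝ} (hy : y ∈ E) : ∃ x : X, inc x = y := ⟨(⟨y, hy⟩ : E), rfl⟩

theorem isometry_inc : Isometry inc := isometry_subtype_coe

theorem range_inc : range inc = (E : Set (J →ᵇ ℝ)) := by
  ext y
  constructor
  · rintro ⟨x, rfl⟩
    exact inc_mem x
  · intro hy
    exact exists_inc hy

instance : CompleteSpace X := by
  have h : IsClosed (E : Set (J →ᵇ ℝ)) := E₀.isClosed_topologicalClosure
  rw [← range_inc] at h
  exact isometry_inc.isUniformInducing.completeSpace h.isComplete

instance : TopologicalSpace.SeparableSpace X := by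
  have h1 : TopologicalSpace.IsSeparable (E₀ : Set (J →ᵇ ℝ)) :=
    (countable_range e).isSeparable.span
  have h2 : TopologicalSpace.IsSeparable (E : Set (J →ᵇ ℝ)) := h1.closure
  have h3 : TopologicalSpace.SeparableSpace E := h2.separableSpace
  exact h3

/-- the projections on `X` -/
noncomputable def P (F : Finset (List Bool)) : X →L[ℝ] X :=
  LinearMap.mkContinuous
    { toFun := fun x => (⟨R F (inc x), R_mem_E F _ (inc_mem x)⟩ : E)
      map_add' := fun x y => inc_injective (by
        change R F (inc (x + y)) = R F (inc x) + R F (inc y)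
        rw [map_add, map_add])
      map_smul' := fun c x => inc_injective (by
        change R F (inc (c • x)) = c • R F (inc x)
        rw [map_smul, map_smul]) } 1 (fun x => by
          change ‖R F (inc x)‖ ≤ 1 * ‖inc x‖
          exact ((R F).le_opNorm _).trans (mul_le_mul_of_nonneg_right (norm_R_le F) (norm_nonneg _)))

theorem inc_P (F : Finset (List Bool)) (x : X) : inc (P F x) = R F (inc x) := rfl

theorem norm_P_le (F : Finset (List Bool)) : ‖P F‖ ≤ 1 :=
  LinearMap.mkContinuous_norm_le _ zero_le_one _

theorem P_sub (F G : Finset (List Bool)) (h : F ⊆ G) : P G - P F = P (G \ F) := by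
  ext1 x
  apply inc_injective
  have h1 := eq_on_E (R G - R F) (R (G \ F)) (fun t => by
    rw [sub_apply, R_e, R_e, R_e]
    by_cases hG : t ∈ G
    · by_cases hF : t ∈ F
      · simp [hG, hF]
      · simp [hG, hF]
    · have hF : t ∉ F := fun hF => hG (h hF)
      simp [hG, hF]) (inc x) (inc_mem x)
  rw [sub_apply, map_sub, inc_P, inc_P, inc_P]
  exact h1

theorem P_lim (x : X) : Tendsto (fun F => P F x) atTop (𝓝 x) := by
  rw [Metric.tendsto_atTop]
  intro ε hε
  have hx : inc x ∈ closure (E₀ : Set (J →ᵇ ℝ)) := inc_mem x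
  obtain ⟨y, hy, hxy⟩ := Metric.mem_closure_iff.1 hx (ε / 2) (by linarith)
  have hy' : y ∈ Submodule.span ℝ (range e) := hy
  obtain ⟨F₀, hF₀⟩ : ∃ F₀ : Finset (List Bool), ∀ F, F₀ ⊆ F → R F y = y := by
    clear hxy hy
    induction hy' using Submodule.span_induction with
    | mem z hz =>
      obtain ⟨t, rfl⟩ := hz
      refine ⟨{t}, fun F hF => ?_⟩
      rw [R_e, if_pos (hF (Finset.mem_singleton_self t))]
    | zero => exact ⟨∅, fun F _ => map_zero _⟩
    | add z w hz hw ihz ihw =>
      obtain ⟨F1, h1⟩ := ihz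
      obtain ⟨F2, h2⟩ := ihw
      refine ⟨F1 ∪ F2, fun F hF => ?_⟩
      rw [map_add, h1 F (Finset.union_subset_left hF), h2 F (Finset.union_subset_right hF)]
    | smul c z hz ih =>
      obtain ⟨F1, h1⟩ := ih
      exact ⟨F1, fun F hF => by rw [map_smul, h1 F hF]⟩
  refine ⟨F₀, fun F hF => ?_⟩
  rw [dist_eq_norm, ← norm_inc, map_sub, inc_P]
  have h2 : R F (inc x) - inc x = R F (inc x - y) - (inc x - y) := by
    rw [map_sub, hF₀ F hF]; abel
  rw [h2]
  have h3 : ‖R F (inc x - y)‖ ≤ ‖inc x - y‖ := by
    refine ((R F).le_opNorm _).trans ?_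
    exact mul_le_of_le_one_left (norm_nonneg _) (norm_R_le F)
  rw [dist_eq_norm] at hxy
  have h4 := norm_sub_le (R F (inc x - y)) (inc x - y)
  linarith

/-- the images of the ball under the projections are totally bounded -/
theorem P_tb (F : Finset (List Bool)) : TotallyBounded (P F '' closedBall (0 : X) 1) := by
  have hfd : FiniteDimensional ℝ (Submodule.span ℝ (e '' (F : Set (List Bool)))) :=
    FiniteDimensional.span_of_finite ℝ (F.finite_toSet.image e)
  have h1 : TotallyBounded (inc '' (P F '' closedBall (0 : X) 1)) := by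
    have h2 : IsCompact (closedBall (0 : Submodule.span ℝ (e '' (F : Set (List Bool)))) 1) :=
      isCompact_closedBall _ _
    have h3 := (h2.image continuous_subtype_val).totallyBounded
    refine h3.subset ?_
    rintro _ ⟨_, ⟨x, hx, rfl⟩, rfl⟩
    have hx' : ‖x‖ ≤ 1 := by simpa using hx
    have h4 : ‖P F x‖ ≤ 1 := ((P F).le_opNorm x).trans
      (by have := mul_le_mul (norm_P_le F) hx' (norm_nonneg _) zero_le_one; linarith)
    have h5 : inc (P F x) ∈ Submodule.span ℝ (e '' (F : Set (List Bool))) :=
      R_mem F _ (inc_mem x)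
    refine ⟨⟨inc (P F x), h5⟩, ?_, rfl⟩
    rw [mem_closedBall]
    change dist (inc (P F x)) 0 ≤ 1
    rw [dist_zero_right, norm_inc]
    exact h4
  exact (totallyBounded_image_iff isometry_inc.isUniformInducing).1 h1

/-- the basis vectors -/
noncomputable def bX (t : List Bool) : X := (⟨e t, e_mem t⟩ : E)

theorem inc_bX (t : List Bool) : inc (bX t) = e t := rfl

/-- evaluation at an admissible family -/
noncomputable def ev (a : J) : X →L[ℝ] ℝ :=
  LinearMap.mkContinuous
    { toFun := fun x => inc x a
      map_add' := fun x y => by rw [map_add]; rfl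
      map_smul' := fun c x => by rw [map_smul]; rfl } 1 (fun x => by
        rw [one_mul]
        exact (inc x).norm_coe_le_norm a)

theorem ev_apply (a : J) (x : X) : ev a x = inc x a := rfl

@[simp] theorem ev_bX (a : J) (t : List Bool) : ev a (bX t) = a.1 t := rfl

theorem norm_le_of_ev {x : X} {C : ℝ} (hC : 0 ≤ C) (h : ∀ a, |ev a x| ≤ C) : ‖x‖ ≤ C := by
  rw [← norm_inc, BoundedContinuousFunction.norm_le hC]
  exact h

/-- sum of the basis along a branch -/
noncomputable def V : List Bool → X
  | [] => bX []
  | b :: s => bX (b :: s) + V s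

/-- averages over the successors of `s` that are `k` levels higher of the sums along branches -/
noncomputable def U : ℕ → List Bool → X
  | 0, s => V s
  | k + 1, s => (1 / 2 : ℝ) • (U k (false :: s) + U k (true :: s))

/-- averages over the successors of `s` that are `k` levels higher of the basis -/
noncomputable def D : ℕ → List Bool → X
  | 0, s => bX s
  | k + 1, s => (1 / 2 : ℝ) • (D k (false :: s) + D k (true :: s))

theorem U_succ (k : ℕ) (s : List Bool) :
    U (k + 1) s = (1 / 2 : ℝ) • (U k (false :: s) + U k (true :: s)) := rfl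

theorem D_succ (k : ℕ) (s : List Bool) :
    D (k + 1) s = (1 / 2 : ℝ) • (D k (false :: s) + D k (true :: s)) := rfl

theorem U_sub (k : ℕ) (s : List Bool) : U (k + 1) s - U k s = D (k + 1) s := by
  induction k generalizing s with
  | zero =>
    have h1 : U 1 s = (1 / 2 : ℝ) • ((bX (false :: s) + V s) + (bX (true :: s) + V s)) := rfl
    have h2 : U 0 s = V s := rfl
    have h3 : D 1 s = (1 / 2 : ℝ) • (bX (false :: s) + bX (true :: s)) := rfl
    rw [h1, h2, h3]
    module
  | succ k ih =>
    rw [U_succ (k + 1) s, U_succ k s, D_succ (k + 1) s, ← ih (false :: s), ← ih (true :: s)]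
    module

theorem ev_V (a : J) (s : List Bool) : ev a (V s) = bs a.1 s := by
  induction s with
  | nil => rfl
  | cons b s ih =>
    have h1 : V (b :: s) = bX (b :: s) + V s := rfl
    rw [h1, map_add, ih, ev_bX]
    rfl

theorem ev_D (a : J) (k : ℕ) (s : List Bool) : ev a (D k s) = (1 / 2 : ℝ) ^ k * ls a.1 k s := by
  induction k generalizing s with
  | zero =>
    have h1 : D 0 s = bX s := rfl
    rw [h1, ev_bX, pow_zero, one_mul]
    rfl
  | succ k ih =>
    have h1 : ls a.1 (k + 1) s = ls a.1 k (false :: s) + ls a.1 k (true :: s) := rfl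
    rw [D_succ, map_smul, map_add, ih, ih, h1, smul_eq_mul]
    ring

theorem norm_D_le (k : ℕ) (s : List Bool) : ‖D k s‖ ≤ (1 / 2 : ℝ) ^ k := by
  refine norm_le_of_ev (by positivity) fun a => ?_
  rw [ev_D, abs_mul, abs_of_nonneg (by positivity : (0 : ℝ) ≤ (1 / 2) ^ k)]
  have h1 := (abs_ls_le a.1 k s).trans (a.2.2 k s)
  exact mul_le_of_le_one_right (by positivity) h1

theorem abs_ev_U (a : J) (k : ℕ) (s : List Bool) : |ev a (U k s)| ≤ 1 := by
  induction k generalizing s with
  | zero =>
    have h1 : U 0 s = V s := rfl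
    rw [h1, ev_V]
    exact (abs_bs_le a.1 s).trans (a.2.1 s)
  | succ k ih =>
    rw [U_succ, map_smul, map_add, smul_eq_mul, abs_mul]
    have h1 := abs_add_le (ev a (U k (false :: s))) (ev a (U k (true :: s)))
    have h2 := ih (false :: s)
    have h3 := ih (true :: s)
    rw [abs_of_nonneg (by norm_num : (0 : ℝ) ≤ 1 / 2)]
    linarith

theorem exists_lim (s : List Bool) : ∃ x : X, Tendsto (fun k => U k s) atTop (𝓝 x) := by
  apply cauchySeq_tendsto_of_complete
  refine cauchySeq_of_le_geometric (1 / 2 : ℝ) 1 (by norm_num) fun k => ?_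
  rw [dist_comm, dist_eq_norm, U_sub, one_mul]
  refine (norm_D_le _ _).trans ?_
  exact pow_le_pow_of_le_one (by norm_num) (by norm_num) (Nat.le_succ k)

/-- the vectors that generate the set that is not slicely countably determined -/
noncomputable def u (s : List Bool) : X := (exists_lim s).choose

theorem u_spec (s : List Bool) : Tendsto (fun k => U k s) atTop (𝓝 (u s)) :=
  (exists_lim s).choose_spec

theorem u_mid (s : List Bool) : u s = (1 / 2 : ℝ) • (u (false :: s) + u (true :: s)) := by
  have h1 : Tendsto (fun k => U (k + 1) s) atTop (𝓝 (u s)) :=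
    (u_spec s).comp (tendsto_add_atTop_nat 1)
  have h2 : Tendsto (fun k => U (k + 1) s) atTop
      (𝓝 ((1 / 2 : ℝ) • (u (false :: s) + u (true :: s)))) := by
    simp only [U_succ]
    exact ((u_spec _).add (u_spec _)).const_smul _
  exact tendsto_nhds_unique h1 h2

theorem norm_u_le (s : List Bool) : ‖u s‖ ≤ 1 := by
  refine norm_le_of_ev zero_le_one fun a => ?_
  have h1 : Tendsto (fun k => |ev a (U k s)|) atTop (𝓝 |ev a (u s)|) :=
    (((ev a).continuous.tendsto _).comp (u_spec s)).abs
  exact le_of_tendsto' h1 fun k => abs_ev_U a k s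

section indicator

open Classical in
/-- indicator function of a set of nodes -/
noncomputable def ind (I : Set (List Bool)) (t : List Bool) : ℝ := if t ∈ I then 1 else 0

variable {I : Set (List Bool)}

theorem ind_of_mem {t : List Bool} (h : t ∈ I) : ind I t = 1 := by
  unfold ind; rw [if_pos h]

theorem ind_of_notMem {t : List Bool} (h : t ∉ I) : ind I t = 0 := by
  unfold ind; rw [if_neg h]

theorem ind_le_one (t : List Bool) : ind I t ≤ 1 := by
  unfold ind; split_ifs <;> norm_num

theorem abs_ind (t : List Bool) : |ind I t| = ind I t := by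
  unfold ind; split_ifs <;> simp

theorem bs_zero (s : List Bool) (h : ∀ r, r <:+ s → r ∉ I) : bs (ind I) s = 0 := by
  induction s with
  | nil => exact ind_of_notMem (h _ List.suffix_rfl)
  | cons b s ih =>
    have h1 : bs (ind I) (b :: s) = ind I (b :: s) + bs (ind I) s := rfl
    rw [h1, ind_of_notMem (h _ List.suffix_rfl),
      ih fun r hr => h r (hr.trans (List.suffix_cons b s)), add_zero]

theorem bs_le_one (hI : ∀ r ∈ I, ∀ r' ∈ I, r <:+ r' → r = r') (s : List Bool) :
    bs (ind I) s ≤ 1 := by
  induction s with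
  | nil => exact ind_le_one _
  | cons b s ih =>
    have h1 : bs (ind I) (b :: s) = ind I (b :: s) + bs (ind I) s := rfl
    rw [h1]
    by_cases hb : b :: s ∈ I
    · rw [bs_zero s, add_zero]
      · exact ind_le_one _
      · intro r hr hrI
        have h2 := hI r hrI _ hb (hr.trans (List.suffix_cons b s))
        have h3 := hr.length_le
        rw [h2, List.length_cons] at h3
        omega
    · rw [ind_of_notMem hb, zero_add]
      exact ih

theorem bs_eq_one (hI : ∀ r ∈ I, ∀ r' ∈ I, r <:+ r' → r = r') (s : List Bool)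
    (h : ∃ r ∈ I, r <:+ s) : bs (ind I) s = 1 := by
  induction s with
  | nil =>
    obtain ⟨r, hr, hrs⟩ := h
    have : r = [] := List.suffix_nil.1 hrs
    subst this
    exact ind_of_mem hr
  | cons b s ih =>
    have h1 : bs (ind I) (b :: s) = ind I (b :: s) + bs (ind I) s := rfl
    rw [h1]
    by_cases hb : b :: s ∈ I
    · rw [bs_zero s, add_zero, ind_of_mem hb]
      intro r hr hrI
      have h2 := hI r hrI _ hb (hr.trans (List.suffix_cons b s))
      have h3 := hr.length_le
      rw [h2, List.length_cons] at h3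
      omega
    · rw [ind_of_notMem hb, zero_add]
      apply ih
      obtain ⟨r, hr, hrs⟩ := h
      rcases List.suffix_cons_iff.1 hrs with h2 | h2
      · exact absurd (h2 ▸ hr) hb
      · exact ⟨r, hr, h2⟩

theorem ls_zero (k : ℕ) (s : List Bool) (h : ∀ r ∈ I, s <:+ r → r.length ≠ s.length + k) :
    ls (ind I) k s = 0 := by
  induction k generalizing s with
  | zero => exact ind_of_notMem fun hs => h s hs List.suffix_rfl rfl
  | succ k ih =>
    have h1 : ls (ind I) (k + 1) s = ls (ind I) k (false :: s) + ls (ind I) k (true :: s) := rfl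
    rw [h1, ih (false :: s), ih (true :: s), add_zero]
    · intro r hr hs
      have := h r hr ((List.suffix_cons _ _).trans hs)
      rw [List.length_cons]
      omega
    · intro r hr hs
      have := h r hr ((List.suffix_cons _ _).trans hs)
      rw [List.length_cons]
      omega

theorem ls_le_one (hI : ∀ r ∈ I, ∀ r' ∈ I, r.length = r'.length → r = r') (k : ℕ)
    (s : List Bool) : ls (ind I) k s ≤ 1 := by
  induction k generalizing s with
  | zero => exact ind_le_one _
  | succ k ih =>
    have h1 : ls (ind I) (k + 1) s = ls (ind I) k (false :: s) + ls (ind I) k (true :: s) := rfl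
    rw [h1]
    by_cases h : ∀ r ∈ I, (false :: s) <:+ r → r.length ≠ (false :: s).length + k
    · rw [ls_zero k _ h, zero_add]
      exact ih _
    · push Not at h
      obtain ⟨r, hr, hs, hl⟩ := h
      rw [ls_zero k (true :: s), add_zero]
      · exact ih _
      · intro r' hr' hs' hl'
        have h2 : r = r' := hI r hr r' hr' (by rw [hl, hl', List.length_cons, List.length_cons])
        subst h2
        have h3 : (false :: s) = (true :: s) := by
          rcases List.suffix_or_suffix_of_suffix hs hs' with h4 | h4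
          · exact h4.eq_of_length (by simp)
          · exact (h4.eq_of_length (by simp)).symm
        simp at h3

/-- indicator functions of antichains with at most one node per level are admissible -/
noncomputable def indJ (I : Set (List Bool)) (hI : ∀ r ∈ I, ∀ r' ∈ I, r <:+ r' → r = r')
    (hI' : ∀ r ∈ I, ∀ r' ∈ I, r.length = r'.length → r = r') : J :=
  ⟨ind I, by
    constructor
    · intro s
      simp only [abs_ind]
      exact bs_le_one hI s
    · intro k s
      simp only [abs_ind]
      exact ls_le_one hI' k s⟩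

theorem ev_U_eq_one (hI : ∀ r ∈ I, ∀ r' ∈ I, r <:+ r' → r = r')
    (hI' : ∀ r ∈ I, ∀ r' ∈ I, r.length = r'.length → r = r') (k : ℕ) (s : List Bool)
    (h : ∃ r ∈ I, r <:+ s) : ev (indJ I hI hI') (U k s) = 1 := by
  induction k generalizing s with
  | zero =>
    have h1 : U 0 s = V s := rfl
    rw [h1, ev_V]
    exact bs_eq_one hI s h
  | succ k ih =>
    obtain ⟨r, hr, hrs⟩ := h
    rw [U_succ, map_smul, map_add,
      ih (false :: s) ⟨r, hr, hrs.trans (List.suffix_cons _ _)⟩,
      ih (true :: s) ⟨r, hr, hrs.trans (List.suffix_cons _ _)⟩]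
    norm_num

theorem ev_u_eq_one (hI : ∀ r ∈ I, ∀ r' ∈ I, r <:+ r' → r = r')
    (hI' : ∀ r ∈ I, ∀ r' ∈ I, r.length = r'.length → r = r') (s : List Bool)
    (h : ∃ r ∈ I, r <:+ s) : ev (indJ I hI hI') (u s) = 1 := by
  have h1 := ((ev (indJ I hI hI')).continuous.tendsto _).comp (u_spec s)
  refine tendsto_nhds_unique h1 ?_
  have h2 : (⇑(ev (indJ I hI hI')) ∘ fun k => U k s) = fun _ => (1 : ℝ) := by
    funext k
    exact ev_U_eq_one hI hI' k s h
  rw [h2]
  exact tendsto_const_nhds

theorem ev_u_le (hI : ∀ r ∈ I, ∀ r' ∈ I, r <:+ r' → r = r')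
    (hI' : ∀ r ∈ I, ∀ r' ∈ I, r.length = r'.length → r = r') (h : ∀ r ∈ I, 2 ≤ r.length) :
    ev (indJ I hI hI') (u []) ≤ 1 / 2 := by
  set a := indJ I hI hI' with ha
  have hval : a.1 = ind I := rfl
  have h1 : ∀ k, ev a (U (k + 1) []) ≤ 1 / 2 - (1 / 2 : ℝ) ^ (k + 1) := by
    intro k
    induction k with
    | zero =>
      have h2 : U 1 [] = U 0 [] + D 1 [] := by rw [← U_sub]; abel
      have h3 : U 0 [] = bX [] := rfl
      rw [h2, map_add, ev_D, h3, ev_bX, hval]
      have h4 : ind I [] = 0 := ind_of_notMem fun hh => by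
        have := h _ hh
        simp at this
      have h5 : ls (ind I) 1 [] = 0 := ls_zero 1 [] fun r hr _ => by
        have := h r hr
        simp only [List.length_nil]
        omega
      rw [h4, h5]
      norm_num
    | succ k ih =>
      have h2 : U (k + 1 + 1) [] = U (k + 1) [] + D (k + 1 + 1) [] := by rw [← U_sub]; abel
      rw [h2, map_add, ev_D, hval]
      have h3 : ls (ind I) (k + 1 + 1) [] ≤ 1 := ls_le_one hI' _ _
      have h4 : (1 / 2 : ℝ) ^ (k + 1 + 1) * ls (ind I) (k + 1 + 1) [] ≤ (1 / 2 : ℝ) ^ (k + 1 + 1) :=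
        mul_le_of_le_one_right (by positivity) h3
      have h5 : (1 / 2 : ℝ) ^ (k + 1 + 1) = (1 / 2 : ℝ) ^ (k + 1) / 2 := by ring
      rw [h5] at h4 ⊢
      linarith
  have h2 := ((ev a).continuous.tendsto _).comp ((u_spec []).comp (tendsto_add_atTop_nat 1))
  refine le_of_tendsto' h2 fun k => ?_
  have h3 := h1 k
  have h4 : (0 : ℝ) ≤ (1 / 2) ^ (k + 1) := by positivity
  simp only [Function.comp]
  linarith

end indicator

/-- the set that is not slicely countably determined -/
noncomputable def A : Set X := convexHull ℝ (range u)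

theorem u_mem (s : List Bool) : u s ∈ A := subset_convexHull ℝ _ ⟨s, rfl⟩

theorem A_bounded : Bornology.IsBounded A := by
  refine (isBounded_convexHull).2 ?_
  refine (isBounded_closedBall (x := (0 : X)) (r := 1)).subset ?_
  rintro _ ⟨s, rfl⟩
  simpa using norm_u_le s

theorem not_scd : ¬ ∃ (f : ℕ → (X →L[ℝ] ℝ)) (c : ℕ → ℝ),
    (∀ n, ∃ x ∈ A, c n < f n x) ∧
      ∀ y : ℕ → X, (∀ n, y n ∈ A ∧ c n < f n (y n)) → A ⊆ closure (convexHull ℝ (range y)) := by
  rintro ⟨f, c, hne, hdet⟩
  -- every slice contains generators at arbitrarily high levels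
  have h1 : ∀ n, ∃ s, c n < f n (u s) := by
    intro n
    by_contra hcon
    push Not at hcon
    obtain ⟨x, hx, hx2⟩ := hne n
    have h2 : A ⊆ {x | f n x ≤ c n} := by
      refine convexHull_min ?_ (convex_halfSpace_le (f n).toLinearMap.isLinear _)
      rintro _ ⟨s, rfl⟩
      exact hcon s
    exact absurd (h2 hx) (not_le.2 hx2)
  have h2 : ∀ n l, ∃ s : List Bool, l ≤ s.length ∧ c n < f n (u s) := by
    intro n l
    induction l with
    | zero =>
      obtain ⟨s, hs⟩ := h1 n
      exact ⟨s, Nat.zero_le _, hs⟩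
    | succ l ih =>
      obtain ⟨s, hl, hs⟩ := ih
      rw [u_mid, map_smul, map_add, smul_eq_mul] at hs
      by_cases h3 : c n < f n (u (false :: s))
      · exact ⟨false :: s, by rw [List.length_cons]; omega, h3⟩
      · refine ⟨true :: s, by rw [List.length_cons]; omega, ?_⟩
        push Not at h3
        linarith
  choose g hg1 hg2 using h2
  let s : ℕ → List Bool := fun n => Nat.rec (g 0 2) (fun n t => g (n + 1) (t.length + 1)) n
  have hs0 : s 0 = g 0 2 := rfl
  have hs1 : ∀ n, s (n + 1) = g (n + 1) ((s n).length + 1) := fun n => rfl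
  have hmono : StrictMono fun n => (s n).length := by
    refine strictMono_nat_of_lt_succ fun n => ?_
    have := hg1 (n + 1) ((s n).length + 1)
    rw [← hs1] at this
    exact this
  have hlen : ∀ n, 2 ≤ (s n).length := by
    intro n
    have h3 : 2 ≤ (s 0).length := hg1 0 2
    exact h3.trans (hmono.monotone (Nat.zero_le n))
  have hsl : ∀ n, c n < f n (u (s n)) := by
    intro n
    cases n with
    | zero => exact hg2 0 2
    | succ n => exact hg2 (n + 1) _
  let I : Set (List Bool) := {t | ∃ n, t = s n ∧ ∀ j, s j <:+ s n → s j = s n}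
  have hI : ∀ r ∈ I, ∀ r' ∈ I, r <:+ r' → r = r' := by
    rintro r ⟨n, rfl, _⟩ r' ⟨m, rfl, hm⟩ h
    exact hm n h
  have hI' : ∀ r ∈ I, ∀ r' ∈ I, r.length = r'.length → r = r' := by
    rintro r ⟨n, rfl, _⟩ r' ⟨m, rfl, _⟩ h
    rw [hmono.injective h]
  have hI2 : ∀ r ∈ I, 2 ≤ r.length := by
    rintro r ⟨n, rfl, _⟩
    exact hlen n
  have hsuf : ∀ n, ∃ r ∈ I, r <:+ s n := by
    intro n
    obtain ⟨j, hj, hmin⟩ : ∃ j, s j <:+ s n ∧ ∀ i, s i <:+ s n → (s j).length ≤ (s i).length := by
      classical
      have hex : ∃ l, ∃ j, s j <:+ s n ∧ (s j).length = l := ⟨_, n, List.suffix_rfl, rfl⟩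
      obtain ⟨j, hj1, hj2⟩ := Nat.find_spec hex
      refine ⟨j, hj1, fun i hi => ?_⟩
      rw [hj2]
      exact Nat.find_min' hex ⟨i, hi, rfl⟩
    refine ⟨s j, ⟨j, rfl, fun i hi => ?_⟩, hj⟩
    exact hi.eq_of_length_le (hmin i (hi.trans hj))
  -- the two functionals
  have hN : ∀ r ∈ ({[]} : Set (List Bool)), ∀ r' ∈ ({[]} : Set (List Bool)), r <:+ r' → r = r' := by
    rintro r rfl r' rfl _
    rfl
  have hN' : ∀ r ∈ ({[]} : Set (List Bool)), ∀ r' ∈ ({[]} : Set (List Bool)),
      r.length = r'.length → r = r' := by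
    rintro r rfl r' rfl _
    rfl
  set h : X →L[ℝ] ℝ := ev (indJ {[]} hN hN') - ev (indJ I hI hI') with hh
  have hev0 : ∀ t, ev (indJ {[]} hN hN') (u t) = 1 := fun t =>
    ev_u_eq_one hN hN' t ⟨[], rfl, List.nil_suffix⟩
  have hy : ∀ n, h (u (s n)) = 0 := by
    intro n
    rw [hh, sub_apply, hev0, ev_u_eq_one hI hI' _ (hsuf n), sub_self]
  have h3 := hdet (fun n => u (s n)) (fun n => ⟨u_mem _, hsl n⟩)
  have h4 : closure (convexHull ℝ (range fun n => u (s n))) ⊆ {x | h x = 0} := by
    refine closure_minimal (convexHull_min ?_ ?_) (isClosed_eq h.continuous continuous_const)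
    · rintro _ ⟨n, rfl⟩
      exact hy n
    · exact convex_hyperplane h.toLinearMap.isLinear 0
  have h5 : h (u []) = 0 := h4 (h3 (u_mem []))
  rw [hh, sub_apply, hev0] at h5
  have h6 := ev_u_le hI hI' hI2
  linarith

end Pool.Agent.TH324.Tree
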