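import Pool.Agent.TH281.DW.Stmts
import Pool.Agent.W741.ER3
import Pool.Agent.W424.ER1
import Pool.Agent.W424.ER2

/-!
DW-1 (job 2099 for helper281): resolvent growth of order `β ≥ 1` implies decay `T^(-1/β)`.
Adapted from `Pool/Agent/W741/ER3.lean` (the case `β = 1`).
-/

set_option autoImplicit false

open MeasureTheory Complex Filter Topology Set
open scoped ENNReal Real

namespace Pool.Agent.TH324.J2099

open Pool.Agent.TH281.DW Pool.Agent.W805.ER Pool.Agent.W741.ER Pool.Agent.W741.ER3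

/-- interpolation -/
theorem interp {Z Y K L β η : ℝ} (hβ : 1 ≤ β) (hZ : 0 ≤ Z) (hY : 0 ≤ Y) (hK : 0 ≤ K) (hL : 0 < L)
    (h : Z ≤ K * (1 + η ^ 2) ^ β * Y) :
    Z ≤ K ^ (1 / β) * L ^ (-(2 / β)) * (L ^ 2 * ((1 + η ^ 2) * Y) + (1 + η ^ 2) * Z) := by
  have hβ0 : 0 < β := by linarith
  have hp0 : 0 < 1 / β := by positivity
  have hp1 : 1 / β ≤ 1 := by rw [div_le_one hβ0]; exact hβ
  set p : ℝ := 1 / β with hp
  have hE : 0 < 1 + η ^ 2 := by positivity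
  have hpβ : β * p = 1 := by rw [hp]; field_simp
  have e0 : Z = Z ^ p * Z ^ (1 - p) := by
    rcases hZ.eq_or_lt with h0 | h0
    · rw [← h0, Real.zero_rpow hp0.ne', zero_mul]
    · rw [← Real.rpow_add h0]
      rw [add_sub_cancel, Real.rpow_one]
  have e1 : Z ^ p ≤ K ^ p * (1 + η ^ 2) * Y ^ p := by
    have := Real.rpow_le_rpow hZ h hp0.le
    rw [Real.mul_rpow (by positivity) hY, Real.mul_rpow hK (by positivity), ← Real.rpow_mul hE.le,
      hpβ, Real.rpow_one] at this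
    exact this
  have e2 : (1 + η ^ 2) = (1 + η ^ 2) ^ p * (1 + η ^ 2) ^ (1 - p) := by
    rw [← Real.rpow_add hE, add_sub_cancel, Real.rpow_one]
  have e3 : L ^ (-(2 / β)) * (L ^ 2) ^ p = 1 := by
    have : (L ^ 2 : ℝ) = L ^ (2 : ℝ) := by norm_num
    rw [this, ← Real.rpow_mul hL.le, ← Real.rpow_add hL, hp]
    have : -(2 / β) + 2 * (1 / β) = 0 := by ring
    rw [this, Real.rpow_zero]
  have e4 : (L ^ 2 * ((1 + η ^ 2) * Y)) ^ p * ((1 + η ^ 2) * Z) ^ (1 - p) ≤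
      L ^ 2 * ((1 + η ^ 2) * Y) + (1 + η ^ 2) * Z := by
    have h1 := Real.geom_mean_le_arith_mean2_weighted (w₁ := p) (w₂ := 1 - p)
      (p₁ := L ^ 2 * ((1 + η ^ 2) * Y)) (p₂ := (1 + η ^ 2) * Z) hp0.le (by linarith)
      (by positivity) (by positivity) (by ring)
    refine h1.trans ?_
    have a1 : 0 ≤ L ^ 2 * ((1 + η ^ 2) * Y) := by positivity
    have a2 : 0 ≤ (1 + η ^ 2) * Z := by positivity
    have b1 : p * (L ^ 2 * ((1 + η ^ 2) * Y)) ≤ 1 * (L ^ 2 * ((1 + η ^ 2) * Y)) :=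
      mul_le_mul_of_nonneg_right hp1 a1
    have b2 : (1 - p) * ((1 + η ^ 2) * Z) ≤ 1 * ((1 + η ^ 2) * Z) :=
      mul_le_mul_of_nonneg_right (by linarith) a2
    linarith
  calc Z = Z ^ p * Z ^ (1 - p) := e0
    _ ≤ K ^ p * (1 + η ^ 2) * Y ^ p * Z ^ (1 - p) :=
        mul_le_mul_of_nonneg_right e1 (Real.rpow_nonneg hZ _)
    _ = K ^ p * (L ^ (-(2 / β)) * (L ^ 2) ^ p) *
        ((1 + η ^ 2) ^ p * (1 + η ^ 2) ^ (1 - p)) * Y ^ p * Z ^ (1 - p) := by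
        rw [e3, ← e2]; ring
    _ = K ^ p * L ^ (-(2 / β)) *
        ((L ^ 2 * ((1 + η ^ 2) * Y)) ^ p * ((1 + η ^ 2) * Z) ^ (1 - p)) := by
        rw [Real.mul_rpow (x := L ^ 2) (by positivity) (by positivity),
          Real.mul_rpow (x := 1 + η ^ 2) (y := Y) (by positivity) hY,
          Real.mul_rpow (x := 1 + η ^ 2) (y := Z) (by positivity) hZ]
        ring
    _ ≤ _ := mul_le_mul_of_nonneg_left e4
        (mul_nonneg (Real.rpow_nonneg hK _) (Real.rpow_nonneg hL.le _))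

theorem ch_bd {L t : ℝ} (hL : 1 ≤ L) (ht : t ∈ Icc 0 L) : ch L t ^ 2 ≤ L ^ 2 / 256 := by
  have h0 : 0 ≤ t * (L - t) := mul_nonneg ht.1 (by linarith [ht.2])
  have h1 : t * (L - t) ≤ L ^ 2 / 4 := by nlinarith [sq_nonneg (2 * t - L)]
  have h2 : (t * (L - t)) ^ 2 ≤ (L ^ 2 / 4) ^ 2 := pow_le_pow_left₀ h0 h1 2
  have h3 : ch L t ≤ L / 16 := by
    unfold ch
    rw [div_le_iff₀ (by positivity)]
    calc t ^ 2 * (L - t) ^ 2 = (t * (L - t)) ^ 2 := by ring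
      _ ≤ (L ^ 2 / 4) ^ 2 := h2
      _ = L / 16 * L ^ 3 := by ring
  have h4 : 0 ≤ ch L t := by
    unfold ch
    have : 0 < L := by linarith
    positivity
  calc ch L t ^ 2 ≤ (L / 16) ^ 2 := pow_le_pow_left₀ h4 h3 2
    _ = L ^ 2 / 256 := by ring

theorem main : TaskDec := by
  intro ι H _ _ _ _ e d D C β hβ hD hRE
  have hP : TaskParseval := Pool.Agent.W424.ER1.main
  have hE : TaskEnergy := Pool.Agent.W424.ER2.main
  set C' : ℝ := max C 0 with hC'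
  have hC'0 : 0 ≤ C' := le_max_right _ _
  have hβ0 : 0 < β := by linarith
  set K1 : ℝ := C' ^ (1 / β) with hK1
  have hK10 : 0 ≤ K1 := Real.rpow_nonneg hC'0 _
  refine ⟨163840 * K1 + 1, by positivity, ?_⟩
  intro a w a1 w1 hS hker T hT
  obtain ⟨hanti, hder⟩ := hE ι H e d D hD a w a1 w1 hS
  set X0 := ‖a 0‖ ^ 2 + ‖w 0‖ ^ 2 with hX0
  set X1 := ‖a1 0‖ ^ 2 + ‖w1 0‖ ^ 2 with hX1
  have hX00 : 0 ≤ X0 := by positivity
  have hX10 : 0 ≤ X1 := by positivity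
  have hXle : ∀ t, 0 ≤ t → ‖a t‖ ^ 2 + ‖w t‖ ^ 2 ≤ X0 := fun t ht =>
    hanti (mem_Ici.2 le_rfl) (mem_Ici.2 ht) ht
  have hgoal : ‖a 0‖ ^ 2 + ‖w 0‖ ^ 2 + ‖a1 0‖ ^ 2 + ‖w1 0‖ ^ 2 = X0 + X1 := by
    rw [hX0, hX1]
    ring
  rw [hgoal]
  have hTp : 0 < T ^ (-(2 / β)) := Real.rpow_pos_of_pos hT _
  rcases le_total T (1 / 2) with hT2 | hT2
  · -- small times
    have h1 := hXle T hT.le
    have h2 : 1 ≤ T ^ (-(2 / β)) := by
      apply Real.one_le_rpow_of_pos_of_le_one_of_nonpos hT (by linarith)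
      have : 0 ≤ 2 / β := by positivity
      linarith
    have h3 : (1 : ℝ) ≤ 163840 * K1 + 1 := by linarith
    calc ‖a T‖ ^ 2 + ‖w T‖ ^ 2 ≤ X0 := h1
      _ ≤ 1 * 1 * (X0 + X1) := by linarith
      _ ≤ _ := by gcongr
  -- large times
  set L : ℝ := 2 * T with hL
  have hL1 : 1 ≤ L := by rw [hL]; linarith
  have hL0 : 0 < L := by linarith
  have sub : Icc 0 L ⊆ Ici (0 : ℝ) := fun t ht => ht.1
  have ca : ContinuousOn a (Icc 0 L) := fun t ht => ((hS.ha t ht.1).continuousWithinAt).mono sub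
  have cw : ContinuousOn w (Icc 0 L) := fun t ht => ((hS.hw t ht.1).continuousWithinAt).mono sub
  have ca1 : ContinuousOn a1 (Icc 0 L) := hS.ca.mono sub
  have cw1 : ContinuousOn w1 (Icc 0 L) := hS.cw.mono sub
  have cs : ∀ (χ : ℝ → ℝ), Continuous χ → ∀ b : ℝ → H, ContinuousOn b (Icc 0 L) →
      ContinuousOn (fun t => ((χ t : ℝ) : ℂ) • b t) (Icc 0 L) := fun χ hχ b hb =>
    (continuous_ofReal.comp hχ).continuousOn.smul hb
  have ch00 : ch L 0 = 0 := by unfold ch; ring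
  have chL : ch L L = 0 := by unfold ch; ring
  have ch10 : ch1 L 0 = 0 := by unfold ch1; ring
  have ch1L : ch1 L L = 0 := by unfold ch1; ring
  -- the functions
  set fa : ℝ → H := fun t => ((ch L t : ℝ) : ℂ) • a t with hfa
  set fw : ℝ → H := fun t => ((ch L t : ℝ) : ℂ) • w t with hfw
  set fa1 : ℝ → H := fun t => ((ch L t : ℝ) : ℂ) • a1 t with hfa1
  set fw1 : ℝ → H := fun t => ((ch L t : ℝ) : ℂ) • w1 t with hfw1
  set ga : ℝ → H := fun t => ((ch1 L t : ℝ) : ℂ) • a t with hga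
  set gw : ℝ → H := fun t => ((ch1 L t : ℝ) : ℂ) • w t with hgw
  set ka : ℝ → H := fun t => ((ch2 L t : ℝ) : ℂ) • a t + ((ch1 L t : ℝ) : ℂ) • a1 t with hka
  set kw : ℝ → H := fun t => ((ch2 L t : ℝ) : ℂ) • w t + ((ch1 L t : ℝ) : ℂ) • w1 t with hkw
  set ja : ℝ → H := fun t => ga t + fa1 t with hja
  set jw : ℝ → H := fun t => gw t + fw1 t with hjw
  have cfa : ContinuousOn fa (Icc 0 L) := cs _ (ch_cont L) _ ca
  have cfw : ContinuousOn fw (Icc 0 L) := cs _ (ch_cont L) _ cw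
  have cfa1 : ContinuousOn fa1 (Icc 0 L) := cs _ (ch_cont L) _ ca1
  have cfw1 : ContinuousOn fw1 (Icc 0 L) := cs _ (ch_cont L) _ cw1
  have cga : ContinuousOn ga (Icc 0 L) := cs _ (ch1_cont L) _ ca
  have cgw : ContinuousOn gw (Icc 0 L) := cs _ (ch1_cont L) _ cw
  have cka : ContinuousOn ka (Icc 0 L) := (cs _ (ch2_cont L) _ ca).add (cs _ (ch1_cont L) _ ca1)
  have ckw : ContinuousOn kw (Icc 0 L) := (cs _ (ch2_cont L) _ cw).add (cs _ (ch1_cont L) _ cw1)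
  have cja : ContinuousOn ja (Icc 0 L) := cga.add cfa1
  have cjw : ContinuousOn jw (Icc 0 L) := cgw.add cfw1
  have cDfw : ContinuousOn (fun t => D (fw t)) (Icc 0 L) := D.continuous.comp_continuousOn cfw
  set K2 : ℝ := K1 * L ^ (-(2 / β)) with hK2
  have hK20 : 0 ≤ K2 := mul_nonneg hK10 (Real.rpow_nonneg hL0.le _)
  -- the bound for each frequency
  have hn : ∀ n : ℤ, ‖FC L n fa‖ ^ 2 + ‖FC L n fw‖ ^ 2 ≤
      K2 * (L ^ 2 * (‖FC L n ga‖ ^ 2 + ‖FC L n gw‖ ^ 2 + ‖FC L n ka‖ ^ 2 + ‖FC L n kw‖ ^ 2) +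
        (‖FC L n fa‖ ^ 2 + ‖FC L n fw‖ ^ 2 + ‖FC L n ja‖ ^ 2 + ‖FC L n jw‖ ^ 2)) := by
    intro n
    set η : ℝ := 2 * π * n / L with hη
    have i1' : (((η : ℝ) : ℂ) * I) • FC L n fa = FC L n ja :=
      ibp hL0 n (ch_deriv L) (ch1_cont L) ch00 chL hS.ha hS.ca
    have i2' : (((η : ℝ) : ℂ) * I) • FC L n fw = FC L n jw :=
      ibp hL0 n (ch_deriv L) (ch1_cont L) ch00 chL hS.hw hS.cw
    have i1 : (((η : ℝ) : ℂ) * I) • FC L n fa = FC L n ga + FC L n fa1 := by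
      rw [← FC_add hL0 n cga cfa1]
      exact i1'
    have i2 : (((η : ℝ) : ℂ) * I) • FC L n fw = FC L n gw + FC L n fw1 := by
      rw [← FC_add hL0 n cgw cfw1]
      exact i2'
    have i3 : (((η : ℝ) : ℂ) * I) • FC L n ga = FC L n ka :=
      ibp hL0 n (ch1_deriv L) (ch2_cont L) ch10 ch1L hS.ha hS.ca
    have i4 : (((η : ℝ) : ℂ) * I) • FC L n gw = FC L n kw :=
      ibp hL0 n (ch1_deriv L) (ch2_cont L) ch10 ch1L hS.hw hS.cw
    have m1 : Mult e d (FC L n fw) (FC L n fa1) := by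
      refine FC_mult e d hL0 n cfw cfa1 fun t ht k => ?_
      simp only [hfw, hfa1, map_smul, lp.coeFn_smul, Pi.smul_apply, smul_eq_mul]
      rw [hS.ga t ht.1 k]
      ring
    have m2 : Mult e d (FC L n fa) (-(FC L n fw1) - D (FC L n fw)) := by
      have cneg : ContinuousOn (fun t => -fw1 t) (Icc 0 L) := cfw1.neg
      have csub : ContinuousOn (fun t => -fw1 t - D (fw t)) (Icc 0 L) := cneg.sub cDfw
      rw [← FC_map hL0 n D cfw, ← FC_neg, ← FC_sub hL0 n cneg cDfw]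
      refine FC_mult e d hL0 n cfa csub fun t ht k => ?_
      have h1 := hS.gw t ht.1 k
      have e1 : -fw1 t - D (fw t) = ((ch L t : ℝ) : ℂ) • (-(w1 t) - D (w t)) := by
        simp only [hfw1, hfw, map_smul]
        module
      rw [e1]
      simp only [hfa, map_smul, lp.coeFn_smul, Pi.smul_apply, smul_eq_mul]
      simp only at h1
      rw [h1]
      ring
    have m3 : ∀ k, d k = 0 → e.repr (FC L n fa) k = 0 := by
      intro k hk
      rw [FC_coord e hL0 n cfa]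
      rw [intervalIntegral.integral_congr (g := fun _ => (0 : ℂ)) fun t ht => ?_,
        intervalIntegral.integral_zero]
      rw [uIcc_of_le hL0.le] at ht
      simp only [hfa, map_smul, lp.coeFn_smul, Pi.smul_apply]
      rw [hker t ht.1 k hk]
      simp
    have hr := hRE η (FC L n fa) (FC L n fw) _ _ m1 m2 m3
    have r1 : (((η : ℝ) : ℂ) * I) • FC L n fa - FC L n fa1 = FC L n ga := by
      rw [i1]
      abel
    have r2 : (((η : ℝ) : ℂ) * I) • FC L n fw + (-(FC L n fw1) - D (FC L n fw)) +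
        D (FC L n fw) = FC L n gw := by
      rw [i2]
      abel
    rw [r1, r2] at hr
    have hηI : ‖(((η : ℝ) : ℂ) * I)‖ = |η| := by
      rw [norm_mul, norm_I, mul_one, Complex.norm_real, Real.norm_eq_abs]
    have r3 : η ^ 2 * ‖FC L n ga‖ ^ 2 = ‖FC L n ka‖ ^ 2 := by
      rw [← i3, norm_smul, hηI, mul_pow, sq_abs]
    have r4 : η ^ 2 * ‖FC L n gw‖ ^ 2 = ‖FC L n kw‖ ^ 2 := by
      rw [← i4, norm_smul, hηI, mul_pow, sq_abs]
    have r5 : η ^ 2 * ‖FC L n fa‖ ^ 2 = ‖FC L n ja‖ ^ 2 := by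
      rw [← i1', norm_smul, hηI, mul_pow, sq_abs]
    have r6 : η ^ 2 * ‖FC L n fw‖ ^ 2 = ‖FC L n jw‖ ^ 2 := by
      rw [← i2', norm_smul, hηI, mul_pow, sq_abs]
    have hr' : ‖FC L n fa‖ ^ 2 + ‖FC L n fw‖ ^ 2 ≤
        C' * (1 + η ^ 2) ^ β * (‖FC L n ga‖ ^ 2 + ‖FC L n gw‖ ^ 2) := by
      refine hr.trans ?_
      have h1 : 0 ≤ (1 + η ^ 2) ^ β := Real.rpow_nonneg (by positivity) _
      have h2 : C ≤ C' := le_max_left _ _
      gcongr
    have hi := interp (Z := ‖FC L n fa‖ ^ 2 + ‖FC L n fw‖ ^ 2)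
      (Y := ‖FC L n ga‖ ^ 2 + ‖FC L n gw‖ ^ 2) hβ (by positivity) (by positivity) hC'0 hL0 hr'
    refine hi.trans (le_of_eq ?_)
    rw [← r3, ← r4, ← r5, ← r6]
    ring
  -- summation
  have p1 := hP ι H e L fa hL0 cfa
  have p2 := hP ι H e L fw hL0 cfw
  have p3 := hP ι H e L ga hL0 cga
  have p4 := hP ι H e L gw hL0 cgw
  have p5 := hP ι H e L ka hL0 cka
  have p6 := hP ι H e L kw hL0 ckw
  have p7 := hP ι H e L ja hL0 cja
  have p8 := hP ι H e L jw hL0 cjw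
  have hsum := hasSum_le hn (p1.add p2)
    ((((((p3.add p4).add p5).add p6).mul_left (L ^ 2)).add (((p1.add p2).add p7).add p8)).mul_left
      K2)
  -- integrals
  have hii : ∀ f : ℝ → H, ContinuousOn f (Icc 0 L) →
      IntervalIntegrable (fun t => ‖f t‖ ^ 2) volume 0 L := by
    intro f hf
    apply ContinuousOn.intervalIntegrable
    rw [uIcc_of_le hL0.le]
    exact hf.norm.pow 2
  have hns : ∀ (x : ℝ) (v : H), ‖((x : ℝ) : ℂ) • v‖ ^ 2 = x ^ 2 * ‖v‖ ^ 2 := by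
    intro x v
    rw [norm_smul, Complex.norm_real, Real.norm_eq_abs, mul_pow, sq_abs]
  have hsq : ∀ (x y : H), ‖x + y‖ ^ 2 ≤ 2 * (‖x‖ ^ 2 + ‖y‖ ^ 2) := by
    intro x y
    have h1 := norm_add_le x y
    have h2 := norm_nonneg (x + y)
    nlinarith [sq_nonneg (‖x‖ - ‖y‖)]
  -- upper bound of the right side
  have up : (∫ t in (0 : ℝ)..L, ‖ga t‖ ^ 2) + (∫ t in (0 : ℝ)..L, ‖gw t‖ ^ 2) +
      (∫ t in (0 : ℝ)..L, ‖ka t‖ ^ 2) + (∫ t in (0 : ℝ)..L, ‖kw t‖ ^ 2) ≤ 9 * L * (X0 + X1) := by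
    rw [← intervalIntegral.integral_add (hii _ cga) (hii _ cgw),
      ← intervalIntegral.integral_add ((hii _ cga).add (hii _ cgw)) (hii _ cka),
      ← intervalIntegral.integral_add (((hii _ cga).add (hii _ cgw)).add (hii _ cka)) (hii _ ckw)]
    calc _ ≤ ∫ t in (0 : ℝ)..L, (9 * (X0 + X1)) := by
          refine intervalIntegral.integral_mono_on hL0.le
            ((((hii _ cga).add (hii _ cgw)).add (hii _ cka)).add (hii _ ckw))
            intervalIntegrable_const fun t ht => ?_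
          have b1 := ch1_bd hL1 ht
          have b2 := ch2_bd hL1 ht
          have x0 := hXle t ht.1
          have x1 := hder t ht.1
          have q1 : ‖ga t‖ ^ 2 = ch1 L t ^ 2 * ‖a t‖ ^ 2 := hns _ _
          have q2 : ‖gw t‖ ^ 2 = ch1 L t ^ 2 * ‖w t‖ ^ 2 := hns _ _
          have q3 : ‖ka t‖ ^ 2 ≤ 2 * (ch2 L t ^ 2 * ‖a t‖ ^ 2 + ch1 L t ^ 2 * ‖a1 t‖ ^ 2) := by
            refine (hsq _ _).trans ?_
            rw [hns, hns]
          have q4 : ‖kw t‖ ^ 2 ≤ 2 * (ch2 L t ^ 2 * ‖w t‖ ^ 2 + ch1 L t ^ 2 * ‖w1 t‖ ^ 2) := by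
            refine (hsq _ _).trans ?_
            rw [hns, hns]
          have s1 : 0 ≤ ‖a t‖ ^ 2 + ‖w t‖ ^ 2 := by positivity
          have s2 : 0 ≤ ‖a1 t‖ ^ 2 + ‖w1 t‖ ^ 2 := by positivity
          have t1 : ch1 L t ^ 2 * (‖a t‖ ^ 2 + ‖w t‖ ^ 2) ≤ 1 / 4 * X0 :=
            mul_le_mul b1 x0 s1 (by norm_num)
          have t2 : ch2 L t ^ 2 * (‖a t‖ ^ 2 + ‖w t‖ ^ 2) ≤ 4 * X0 :=
            mul_le_mul b2 x0 s1 (by norm_num)
          have t3 : ch1 L t ^ 2 * (‖a1 t‖ ^ 2 + ‖w1 t‖ ^ 2) ≤ 1 / 4 * X1 :=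
            mul_le_mul b1 x1 s2 (by norm_num)
          rw [q1, q2]
          nlinarith
      _ = 9 * L * (X0 + X1) := by
          rw [intervalIntegral.integral_const, smul_eq_mul]
          ring
  have up2 : (∫ t in (0 : ℝ)..L, ‖fa t‖ ^ 2) + (∫ t in (0 : ℝ)..L, ‖fw t‖ ^ 2) +
      (∫ t in (0 : ℝ)..L, ‖ja t‖ ^ 2) + (∫ t in (0 : ℝ)..L, ‖jw t‖ ^ 2) ≤ L ^ 3 * (X0 + X1) := by
    rw [← intervalIntegral.integral_add (hii _ cfa) (hii _ cfw),
      ← intervalIntegral.integral_add ((hii _ cfa).add (hii _ cfw)) (hii _ cja),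
      ← intervalIntegral.integral_add (((hii _ cfa).add (hii _ cfw)).add (hii _ cja)) (hii _ cjw)]
    calc _ ≤ ∫ t in (0 : ℝ)..L, (L ^ 2 * (X0 + X1)) := by
          refine intervalIntegral.integral_mono_on hL0.le
            ((((hii _ cfa).add (hii _ cfw)).add (hii _ cja)).add (hii _ cjw))
            intervalIntegrable_const fun t ht => ?_
          have b0 := ch_bd hL1 ht
          have b1 := ch1_bd hL1 ht
          have x0 := hXle t ht.1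
          have x1 := hder t ht.1
          have q1 : ‖fa t‖ ^ 2 = ch L t ^ 2 * ‖a t‖ ^ 2 := hns _ _
          have q2 : ‖fw t‖ ^ 2 = ch L t ^ 2 * ‖w t‖ ^ 2 := hns _ _
          have q3 : ‖ja t‖ ^ 2 ≤ 2 * (ch1 L t ^ 2 * ‖a t‖ ^ 2 + ch L t ^ 2 * ‖a1 t‖ ^ 2) := by
            refine (hsq _ _).trans ?_
            rw [hns, hns]
          have q4 : ‖jw t‖ ^ 2 ≤ 2 * (ch1 L t ^ 2 * ‖w t‖ ^ 2 + ch L t ^ 2 * ‖w1 t‖ ^ 2) := by
            refine (hsq _ _).trans ?_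
            rw [hns, hns]
          have s1 : 0 ≤ ‖a t‖ ^ 2 + ‖w t‖ ^ 2 := by positivity
          have s2 : 0 ≤ ‖a1 t‖ ^ 2 + ‖w1 t‖ ^ 2 := by positivity
          have t1 : ch1 L t ^ 2 * (‖a t‖ ^ 2 + ‖w t‖ ^ 2) ≤ 1 / 4 * X0 :=
            mul_le_mul b1 x0 s1 (by norm_num)
          have t2 : ch L t ^ 2 * (‖a t‖ ^ 2 + ‖w t‖ ^ 2) ≤ L ^ 2 / 256 * X0 :=
            mul_le_mul b0 x0 s1 (by positivity)
          have t3 : ch L t ^ 2 * (‖a1 t‖ ^ 2 + ‖w1 t‖ ^ 2) ≤ L ^ 2 / 256 * X1 :=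
            mul_le_mul b0 x1 s2 (by positivity)
          have hL2 : 1 ≤ L ^ 2 := by nlinarith
          have u1 : X0 ≤ L ^ 2 * X0 := le_mul_of_one_le_left hX00 hL2
          have u2 : 0 ≤ L ^ 2 * X1 := by positivity
          have u3 : 0 ≤ L ^ 2 * X0 := by positivity
          rw [q1, q2]
          have v1 : ch L t ^ 2 * ‖a t‖ ^ 2 + ch L t ^ 2 * ‖w t‖ ^ 2 + ‖ja t‖ ^ 2 + ‖jw t‖ ^ 2 ≤
              ch L t ^ 2 * (‖a t‖ ^ 2 + ‖w t‖ ^ 2) + 2 * (ch1 L t ^ 2 * (‖a t‖ ^ 2 + ‖w t‖ ^ 2)) +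
                2 * (ch L t ^ 2 * (‖a1 t‖ ^ 2 + ‖w1 t‖ ^ 2)) := by
            calc _ ≤ ch L t ^ 2 * ‖a t‖ ^ 2 + ch L t ^ 2 * ‖w t‖ ^ 2 +
                  2 * (ch1 L t ^ 2 * ‖a t‖ ^ 2 + ch L t ^ 2 * ‖a1 t‖ ^ 2) +
                  2 * (ch1 L t ^ 2 * ‖w t‖ ^ 2 + ch L t ^ 2 * ‖w1 t‖ ^ 2) := by gcongr
              _ = _ := by ring
          refine v1.trans ?_
          have v2 : L ^ 2 * (X0 + X1) = L ^ 2 * X0 + L ^ 2 * X1 := by ring
          have v3 : L ^ 2 / 256 * X0 = (L ^ 2 * X0) / 256 := by ring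
          have v4 : L ^ 2 / 256 * X1 = (L ^ 2 * X1) / 256 := by ring
          rw [v2]
          rw [v3] at t2
          rw [v4] at t3
          linarith
      _ = L ^ 3 * (X0 + X1) := by
          rw [intervalIntegral.integral_const, smul_eq_mul]
          ring
  -- lower bound of the left side
  have low : L / 4 * ((L / 64) ^ 2 * (‖a T‖ ^ 2 + ‖w T‖ ^ 2)) ≤
      (∫ t in (0 : ℝ)..L, ‖fa t‖ ^ 2) + (∫ t in (0 : ℝ)..L, ‖fw t‖ ^ 2) := by
    rw [← intervalIntegral.integral_add (hii _ cfa) (hii _ cfw)]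
    have hTL : T = L / 2 := by rw [hL]; ring
    calc L / 4 * ((L / 64) ^ 2 * (‖a T‖ ^ 2 + ‖w T‖ ^ 2))
        = ∫ t in (L / 4)..(L / 2), (L / 64) ^ 2 * (‖a T‖ ^ 2 + ‖w T‖ ^ 2) := by
          rw [intervalIntegral.integral_const, smul_eq_mul]
          ring
      _ ≤ ∫ t in (L / 4)..(L / 2), (‖fa t‖ ^ 2 + ‖fw t‖ ^ 2) := by
          refine intervalIntegral.integral_mono_on (by linarith) intervalIntegrable_const
            (((hii _ cfa).add (hii _ cfw)).mono_set ?_) fun t ht => ?_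
          · rw [uIcc_of_le (by linarith), uIcc_of_le hL0.le]
            exact Icc_subset_Icc (by linarith) (by linarith)
          · have e1 : ‖fa t‖ ^ 2 = ch L t ^ 2 * ‖a t‖ ^ 2 := hns _ _
            have e2 : ‖fw t‖ ^ 2 = ch L t ^ 2 * ‖w t‖ ^ 2 := hns _ _
            rw [e1, e2, ← mul_add]
            have e3 : ‖a T‖ ^ 2 + ‖w T‖ ^ 2 ≤ ‖a t‖ ^ 2 + ‖w t‖ ^ 2 :=
              hanti (mem_Ici.2 (by linarith [ht.1])) (mem_Ici.2 hT.le) (by linarith [ht.2])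
            exact mul_le_mul (ch_low hL0 ht.1 ht.2) e3 (by positivity) (by positivity)
      _ ≤ ∫ t in (0 : ℝ)..L, (‖fa t‖ ^ 2 + ‖fw t‖ ^ 2) :=
          intervalIntegral.integral_mono_interval (by linarith) (by linarith) (by linarith)
            (Eventually.of_forall fun t => by positivity) ((hii _ cfa).add (hii _ cfw))
  set Y := ‖a T‖ ^ 2 + ‖w T‖ ^ 2 with hY
  have hY0 : 0 ≤ Y := by positivity
  have hfin : L * (L / 4 * ((L / 64) ^ 2 * Y)) ≤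
      K2 * (L ^ 2 * (L * (9 * L * (X0 + X1))) + L * (L ^ 3 * (X0 + X1))) := by
    calc _ ≤ L * ((∫ t in (0 : ℝ)..L, ‖fa t‖ ^ 2) + (∫ t in (0 : ℝ)..L, ‖fw t‖ ^ 2)) := by gcongr
      _ = L * (∫ t in (0 : ℝ)..L, ‖fa t‖ ^ 2) + L * ∫ t in (0 : ℝ)..L, ‖fw t‖ ^ 2 := by ring
      _ ≤ _ := hsum
      _ = K2 * (L ^ 2 * (L * ((∫ t in (0 : ℝ)..L, ‖ga t‖ ^ 2) + (∫ t in (0 : ℝ)..L, ‖gw t‖ ^ 2) +
            (∫ t in (0 : ℝ)..L, ‖ka t‖ ^ 2) + (∫ t in (0 : ℝ)..L, ‖kw t‖ ^ 2))) +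
          L * ((∫ t in (0 : ℝ)..L, ‖fa t‖ ^ 2) + (∫ t in (0 : ℝ)..L, ‖fw t‖ ^ 2) +
            (∫ t in (0 : ℝ)..L, ‖ja t‖ ^ 2) + (∫ t in (0 : ℝ)..L, ‖jw t‖ ^ 2))) := by ring
      _ ≤ _ := by gcongr
  have hL4 : 0 < L ^ 4 := by positivity
  have hfin2 : Y ≤ 163840 * K2 * (X0 + X1) := by
    have e1 : L ^ 4 * Y ≤ L ^ 4 * (163840 * K2 * (X0 + X1)) := by
      have h1 : L * (L / 4 * ((L / 64) ^ 2 * Y)) = L ^ 4 * Y / 16384 := by ring
      have h2 : K2 * (L ^ 2 * (L * (9 * L * (X0 + X1))) + L * (L ^ 3 * (X0 + X1))) =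
          L ^ 4 * (163840 * K2 * (X0 + X1)) / 16384 := by ring
      rw [h1, h2] at hfin
      linarith
    exact le_of_mul_le_mul_left e1 hL4
  have hK2T : K2 ≤ K1 * T ^ (-(2 / β)) := by
    rw [hK2, hL]
    apply mul_le_mul_of_nonneg_left _ hK10
    apply Real.rpow_le_rpow_of_nonpos hT (by linarith)
    have : 0 ≤ 2 / β := by positivity
    linarith
  calc Y ≤ 163840 * K2 * (X0 + X1) := hfin2
    _ ≤ 163840 * (K1 * T ^ (-(2 / β))) * (X0 + X1) := by gcongr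
    _ = 163840 * K1 * T ^ (-(2 / β)) * (X0 + X1) := by ring
    _ ≤ (163840 * K1 + 1) * T ^ (-(2 / β)) * (X0 + X1) := by gcongr; linarith

end Pool.Agent.TH324.J2099
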